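import Mathlib

/-!
# Strict positivity on the unit sphere of `ℓ²` is not enough for a Pólya certificate

Let `f = p_4^3 - p_6^2 + p_2^2 (p_4 - p_2^2 / 4)^2`, an even symmetric function of degree `12`. It is
strictly positive on the unit sphere of `ℓ²`, but its limit value at the mass partition
`(1/2; 1/2 diffuse)` is `0`, while the coefficient of `m_(12 + 2k)` in `p_2^k f` is `9/16`.
-/

set_option autoImplicit false

namespace Pool.Agent.Results.MP_2f3180_ag.PolyaFails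

open MvPolynomial

/-- An element of `ℝ[p_2, p_4, p_6, ...]` is given by a polynomial `g` in variables indexed by `ℕ`,
the variable with index `i` standing for the power sum `p_{2(i+1)}`. This is its truncation to `n`
variables. -/
noncomputable def trunc (n : ℕ) (g : MvPolynomial ℕ ℝ) : MvPolynomial (Fin n) ℝ :=
  aeval (fun i => psum (Fin n) ℝ (2 * (i + 1))) g

/-- The value of `g(p_2, p_4, ...)` at a real sequence `x`, with `p_k(x) = ∑ x_j ^ k`. -/
noncomputable def value (x : ℕ → ℝ) (g : MvPolynomial ℕ ℝ) : ℝ :=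
  aeval (fun i => ∑' j, x j ^ (2 * (i + 1))) g

/-- The polynomial `f`. -/
noncomputable def f : MvPolynomial ℕ ℝ :=
  X 1 ^ 3 - X 2 ^ 2 + X 0 ^ 2 * (X 1 - C (1 / 4) * X 0 ^ 2) ^ 2

theorem f_homogeneous : IsWeightedHomogeneous (fun i : ℕ => 2 * (i + 1)) f (2 * 6) := by
  have h0 : IsWeightedHomogeneous (fun i : ℕ => 2 * (i + 1)) (X 0 : MvPolynomial ℕ ℝ) 2 :=
    isWeightedHomogeneous_X ℝ _ 0
  have h1 : IsWeightedHomogeneous (fun i : ℕ => 2 * (i + 1)) (X 1 : MvPolynomial ℕ ℝ) 4 :=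
    isWeightedHomogeneous_X ℝ _ 1
  have h2 : IsWeightedHomogeneous (fun i : ℕ => 2 * (i + 1)) (X 2 : MvPolynomial ℕ ℝ) 6 :=
    isWeightedHomogeneous_X ℝ _ 2
  have hC : IsWeightedHomogeneous (fun i : ℕ => 2 * (i + 1)) (C (1 / 4) : MvPolynomial ℕ ℝ) 0 :=
    isWeightedHomogeneous_C _ _
  have h3 : IsWeightedHomogeneous (fun i : ℕ => 2 * (i + 1))
      (X 1 - C (1 / 4) * X 0 ^ 2 : MvPolynomial ℕ ℝ) 4 :=
    (weightedHomogeneousSubmodule ℝ _ _).sub_mem h1 (hC.mul (h0.pow 2))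
  exact (weightedHomogeneousSubmodule ℝ _ _).add_mem
    ((weightedHomogeneousSubmodule ℝ _ _).sub_mem (h1.pow 3) (h2.pow 2))
    ((h0.pow 2).mul (h3.pow 2))

theorem pos_real (a : ℕ → ℝ) (ha : ∀ j, 0 ≤ a j) (hs : Summable a) (h1 : ∑' j, a j = 1) :
    0 < (∑' j, a j ^ 2) ^ 3 - (∑' j, a j ^ 3) ^ 2 + ((∑' j, a j ^ 2) - 1 / 4) ^ 2 := by
  have hle1 : ∀ j, a j ≤ 1 := fun j => by
    rw [← h1]; exact hs.le_tsum j (fun i _ => ha i)
  have hs2 : Summable (fun j => a j ^ 2) := by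
    refine Summable.of_nonneg_of_le (fun j => by positivity) (fun j => ?_) hs
    nlinarith [ha j, hle1 j]
  have hs3 : Summable (fun j => a j ^ 3) := by
    refine Summable.of_nonneg_of_le (fun j => pow_nonneg (ha j) 3) (fun j => ?_) hs2
    nlinarith [ha j, hle1 j, sq_nonneg (a j)]
  set q := ∑' j, a j ^ 2 with hq
  set r := ∑' j, a j ^ 3 with hr
  have hq0 : 0 ≤ q := tsum_nonneg fun j => by positivity
  have hr0 : 0 ≤ r := tsum_nonneg fun j => pow_nonneg (ha j) 3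
  have haq : ∀ j, a j ^ 2 ≤ q := fun j => hs2.le_tsum j (fun i _ => by positivity)
  set s := Real.sqrt q with hsq
  have hs_sq : s ^ 2 = q := Real.sq_sqrt hq0
  have hs0 : 0 ≤ s := Real.sqrt_nonneg q
  have has : ∀ j, a j ≤ s := fun j => by
    have := haq j
    rw [← hs_sq] at this
    exact abs_le_of_sq_le_sq' this hs0 |>.2
  have hrs : r ≤ s * q := by
    rw [hr, hq, ← tsum_mul_left]
    refine hs3.tsum_le_tsum (fun j => ?_) (hs2.mul_left s)
    nlinarith [has j, sq_nonneg (a j)]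
  have hr2 : r ^ 2 ≤ q ^ 3 := by
    have h2 : r ^ 2 ≤ (s * q) ^ 2 := by
      apply pow_le_pow_left₀ hr0 hrs
    calc r ^ 2 ≤ (s * q) ^ 2 := h2
      _ = q ^ 3 := by rw [mul_pow, hs_sq]; ring
  by_cases hq4 : q = 1 / 4
  · -- here the first difference is positive
    have hs12 : s = 1 / 2 := by
      have : s ^ 2 = (1 / 2) ^ 2 := by rw [hs_sq, hq4]; norm_num
      exact (pow_left_inj₀ hs0 (by norm_num) two_ne_zero).1 this
    have hlt : r ^ 2 < q ^ 3 := by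
      by_contra hcon
      push Not at hcon
      have hr8 : 1 / 8 ≤ r := by
        rw [hq4] at hcon
        by_contra h
        push Not at h
        nlinarith
      -- all the terms `a_j ^ 2 (1/2 - a_j)` vanish
      have hterm : ∀ j, 0 ≤ a j ^ 2 * (1 / 2 - a j) := fun j => by
        have := has j
        rw [hs12] at this
        have h3 := sq_nonneg (a j)
        nlinarith
      have hsum : ∑' j, a j ^ 2 * (1 / 2 - a j) = 1 / 2 * q - r := by
        rw [hq, hr, ← tsum_mul_left, ← (hs2.mul_left (1 / 2)).tsum_sub hs3]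
        exact tsum_congr fun j => by ring
      have hsumm : Summable (fun j => a j ^ 2 * (1 / 2 - a j)) :=
        ((hs2.mul_left (1 / 2)).sub hs3).congr fun j => by ring
      have hzero : ∀ j, a j ^ 2 * (1 / 2 - a j) = 0 := by
        intro j
        refine le_antisymm ?_ (hterm j)
        have h3 := hsumm.le_tsum j (fun i _ => hterm i)
        rw [hsum, hq4] at h3
        linarith
      have hzero' : ∀ j, a j * (1 / 2 - a j) = 0 := by
        intro j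
        rcases mul_eq_zero.1 (hzero j) with h | h
        · have : a j = 0 := by simpa using h
          rw [this]; ring
        · rw [h]; ring
      have h4 : ∑' j, a j * (1 / 2 - a j) = 1 / 2 * (∑' j, a j) - q := by
        rw [hq, ← tsum_mul_left, ← (hs.mul_left (1 / 2)).tsum_sub hs2]
        exact tsum_congr fun j => by ring
      rw [h1] at h4
      rw [tsum_congr hzero', tsum_zero, hq4] at h4
      norm_num at h4
    nlinarith [sq_nonneg (q - 1 / 4)]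
  · have : 0 < (q - 1 / 4) ^ 2 := by
      have : q - 1 / 4 ≠ 0 := sub_ne_zero.2 hq4
      positivity
    linarith

theorem value_f (x : ℕ → ℝ) : value x f =
    (∑' j, x j ^ 4) ^ 3 - (∑' j, x j ^ 6) ^ 2 +
      (∑' j, x j ^ 2) ^ 2 * ((∑' j, x j ^ 4) - 1 / 4 * (∑' j, x j ^ 2) ^ 2) ^ 2 := by
  unfold value f
  simp only [map_add, map_sub, map_mul, map_pow, aeval_X, algHom_C]
  norm_num

theorem value_pos (x : ℕ → ℝ) (hs : Summable (fun j => x j ^ 2)) (h1 : ∑' j, x j ^ 2 = 1) :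
    0 < value x f := by
  have h := pos_real (fun j => x j ^ 2) (fun j => by positivity) hs h1
  rw [value_f, h1]
  simp only [← pow_mul] at h
  norm_num at h ⊢
  exact h

theorem eval_trunc {n : ℕ} (y : Fin n → ℝ) : eval y (trunc n f) =
    (∑ j, y j ^ 4) ^ 3 - (∑ j, y j ^ 6) ^ 2 +
      (∑ j, y j ^ 2) ^ 2 * ((∑ j, y j ^ 4) - 1 / 4 * (∑ j, y j ^ 2) ^ 2) ^ 2 := by
  unfold trunc f
  simp only [map_add, map_sub, map_mul, map_pow, aeval_X, algHom_C, psum, map_sum, eval_X,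
    algebraMap_eq, eval_C]

theorem eval_msymm_mono {n N : ℕ} (μ : N.Partition) (x y : Fin n → ℝ) (hy : ∀ i, 0 ≤ y i)
    (hxy : ∀ i, y i ≤ x i) : eval y (msymm (Fin n) ℝ μ) ≤ eval x (msymm (Fin n) ℝ μ) := by
  unfold msymm
  rw [map_sum, map_sum]
  refine Finset.sum_le_sum fun s _ => ?_
  rw [map_multiset_prod, map_multiset_prod, Multiset.map_map, Multiset.map_map]
  simp only [Function.comp_def, eval_X]
  exact Multiset.prod_map_le_prod_map₀ _ _ (fun i _ => hy i) (fun i _ => hxy i)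

/-- There is a symmetric function `g` in the even power sums, homogeneous of degree `2d` and positive
on the unit sphere of `ℓ²`, such that for no `k` is `p_2^k g` a combination of monomial symmetric
functions with nonnegative coefficients. -/
theorem result : ∃ (d : ℕ) (g : MvPolynomial ℕ ℝ),
    IsWeightedHomogeneous (fun i : ℕ => 2 * (i + 1)) g (2 * d) ∧
    (∀ x : ℕ → ℝ, Summable (fun j => x j ^ 2) → ∑' j, x j ^ 2 = 1 → 0 < value x g) ∧
    ∀ (k : ℕ) (c : (2 * d + 2 * k).Partition → ℝ), (∀ μ, 0 ≤ c μ) →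
      ¬ ∀ n : ℕ, psum (Fin n) ℝ 2 ^ k * trunc n g = ∑ μ, C (c μ) * msymm (Fin n) ℝ μ := by
  refine ⟨6, f, f_homogeneous, value_pos, ?_⟩
  intro k c hc h
  -- the scale
  obtain ⟨M, hM⟩ : ∃ M : ℕ, (16 * 2 ^ k : ℝ) < M ^ 2 ∧ 0 < M := by
    obtain ⟨M, hM⟩ := exists_nat_gt (16 * 2 ^ k : ℝ)
    have hpos : (0 : ℝ) < 2 ^ k := by positivity
    have h2k : (1 : ℝ) ≤ 2 ^ k := one_le_pow₀ (by norm_num)
    have hM1 : (1 : ℝ) ≤ M := by nlinarith
    refine ⟨M, by nlinarith, ?_⟩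
    exact_mod_cast (by linarith : (0 : ℝ) < M)
  obtain ⟨hM, hM0⟩ := hM
  have hMR : (0 : ℝ) < M := by exact_mod_cast hM0
  let x : Fin (M ^ 2 + 1) → ℝ := Fin.cons 1 (fun _ => (M : ℝ)⁻¹)
  let y : Fin (M ^ 2 + 1) → ℝ := Fin.cons 1 (fun _ => 0)
  have hy : ∀ i, 0 ≤ y i := by
    intro i
    refine Fin.cases ?_ (fun i => ?_) i <;> simp [y]
  have hxy : ∀ i, y i ≤ x i := by
    intro i
    refine Fin.cases ?_ (fun i => ?_) i <;> simp [x, y]
  have hle : eval y (psum (Fin (M ^ 2 + 1)) ℝ 2 ^ k * trunc (M ^ 2 + 1) f) ≤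
      eval x (psum (Fin (M ^ 2 + 1)) ℝ 2 ^ k * trunc (M ^ 2 + 1) f) := by
    rw [h, map_sum, map_sum]
    refine Finset.sum_le_sum fun μ _ => ?_
    rw [map_mul, map_mul, eval_C, eval_C]
    exact mul_le_mul_of_nonneg_left (eval_msymm_mono μ x y hy hxy) (hc μ)
  have hpx : ∀ e : ℕ, ∑ j, x j ^ e = 1 + (M ^ 2 : ℕ) * ((M : ℝ)⁻¹) ^ e := by
    intro e
    rw [Fin.sum_univ_succ]
    simp [x]
  have hpy : ∀ e : ℕ, e ≠ 0 → ∑ j, y j ^ e = 1 := by
    intro e he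
    rw [Fin.sum_univ_succ]
    simp [y, he]
  rw [map_mul, map_mul, map_pow, map_pow, eval_trunc, eval_trunc, psum, map_sum, map_sum] at hle
  simp only [map_pow, eval_X] at hle
  rw [hpy 2 (by norm_num), hpy 4 (by norm_num), hpy 6 (by norm_num), hpx 2, hpx 4, hpx 6] at hle
  set ε : ℝ := (M : ℝ)⁻¹ ^ 2 with hε
  have hε0 : 0 < ε := by positivity
  have hMε : ((M ^ 2 : ℕ) : ℝ) * ε = 1 := by
    rw [hε]; push_cast; field_simp
  have hε16 : ε * (16 * 2 ^ k) < 1 := by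
    have : ε * (16 * 2 ^ k) < ε * (M : ℝ) ^ 2 := mul_lt_mul_of_pos_left hM hε0
    calc ε * (16 * 2 ^ k) < ε * (M : ℝ) ^ 2 := this
      _ = 1 := by rw [← hMε]; push_cast; ring
  have e2 : ((M ^ 2 : ℕ) : ℝ) * (M : ℝ)⁻¹ ^ 2 = 1 := hMε
  have e4 : ((M ^ 2 : ℕ) : ℝ) * (M : ℝ)⁻¹ ^ 4 = ε := by
    have : (M : ℝ)⁻¹ ^ 4 = ε * ε := by rw [hε]; ring
    rw [this, ← mul_assoc, hMε, one_mul]
  have e6 : ((M ^ 2 : ℕ) : ℝ) * (M : ℝ)⁻¹ ^ 6 = ε ^ 2 := by
    have : (M : ℝ)⁻¹ ^ 6 = ε * ε ^ 2 := by rw [hε]; ring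
    rw [this, ← mul_assoc, hMε, one_mul]
  rw [e2, e4, e6] at hle
  have h2k : (1 : ℝ) ≤ 2 ^ k := one_le_pow₀ (by norm_num)
  have hε1 : ε < 1 / 16 := by nlinarith
  have hone : (1 : ℝ) ^ k = 1 := one_pow k
  have htwo : ((1 : ℝ) + 1) ^ k = 2 ^ k := by norm_num
  rw [hone, htwo] at hle
  have hbound : (1 + ε) ^ 3 - (1 + ε ^ 2) ^ 2 + (1 + 1) ^ 2 * (1 + ε - 1 / 4 * (1 + 1) ^ 2) ^ 2 ≤
      4 * ε := by
    have : (1 + ε) ^ 3 - (1 + ε ^ 2) ^ 2 + (1 + 1) ^ 2 * (1 + ε - 1 / 4 * (1 + 1) ^ 2) ^ 2 =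
      3 * ε + ε * (5 * ε + ε ^ 2 - ε ^ 3) := by ring
    rw [this]
    have : 5 * ε + ε ^ 2 - ε ^ 3 ≤ 1 := by nlinarith [pow_pos hε0 3]
    nlinarith
  have h9 : (9 / 16 : ℝ) ≤ 2 ^ k * (4 * ε) := by
    calc (9 / 16 : ℝ) = 1 * (1 ^ 3 - 1 ^ 2 + 1 ^ 2 * (1 - 1 / 4 * 1 ^ 2) ^ 2) := by norm_num
      _ ≤ _ := hle
      _ ≤ 2 ^ k * (4 * ε) := mul_le_mul_of_nonneg_left hbound (by positivity)
  nlinarith

end Pool.Agent.Results.MP_2f3180_ag.PolyaFails
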